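import Mathlib
import Pool.Agent.helper37.L5.SpecE

/-!
# MP_baa4d7_al, project L5, block E: row PRO5

Reduction of the order of an automorphism modulo inner automorphisms.
-/

set_option autoImplicit false

namespace Pool.Agent.L5

open Pool.Agent.helper58.DC Pool.Agent.DI Pool.Agent.GR Pool.Agent.OB Pool.Agent.DR Pool.Agent.FI Pool.Agent.FI3 Pool.Agent.FI4 Pool.Agent.FI4I Pool.Agent.FI4E Pool.Agent.LE

/-- `o = n₁ * n₂` with `n₂` prime to `n` and all primes of `n₁` dividing `n`. -/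
theorem PRO5_split (n : ℕ) : ∀ o : ℕ, 0 < o → ∃ n₁ n₂ : ℕ, o = n₁ * n₂ ∧ n₂.Coprime n ∧
    ∀ l : ℕ, l.Prime → l ∣ n₁ → l ∣ n := by
  intro o
  induction o using Nat.strong_induction_on with
  | _ o ih =>
    intro ho
    by_cases hc : o.Coprime n
    · exact ⟨1, o, (one_mul o).symm, hc, fun l hl h => absurd (Nat.dvd_one.1 h) hl.ne_one⟩
    · obtain ⟨l, hl, h1, h2⟩ := Nat.Prime.not_coprime_iff_dvd.1 hc
      obtain ⟨o', rfl⟩ := h1
      have ho' : 0 < o' := Nat.pos_of_mul_pos_left ho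
      have hlt : o' < l * o' := by
        have h3 := hl.two_le
        nlinarith
      obtain ⟨n₁, n₂, e, h3, h4⟩ := ih o' hlt ho'
      refine ⟨l * n₁, n₂, by rw [e, mul_assoc], h3, fun q hq h5 => ?_⟩
      rcases (Nat.Prime.dvd_mul hq).1 h5 with h6 | h6
      · rw [(Nat.prime_dvd_prime_iff_eq hq hl).1 h6]
        exact h2
      · exact h4 q hq h6

theorem PRO5 : PRO5_stmt := by
  intro G _ _ α n hn ⟨x, hx⟩
  have hfin : Finite (MulAut G) := Finite.of_injective (fun β : MulAut G => (β : G → G)) DFunLike.coe_injective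
  have ho : 0 < orderOf α := orderOf_pos α
  obtain ⟨n₁, n₂, e, hc, hp⟩ := PRO5_split n (orderOf α) ho
  have hn₂ : 0 < n₂ := by
    rcases Nat.eq_zero_or_pos n₂ with h | h
    · rw [h, mul_zero] at e
      omega
    · exact h
  have hk : 1 ≤ n₂ ^ n.totient := Nat.one_le_iff_ne_zero.2 (pow_ne_zero _ hn₂.ne')
  have h1 : n ∣ n₂ ^ n.totient - 1 := (Nat.modEq_iff_dvd' hk).1 (Nat.ModEq.pow_totient hc).symm
  obtain ⟨j, hj⟩ := h1
  refine ⟨n₂ ^ n.totient, x ^ j, ?_, fun l hl h => ?_⟩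
  · have h2 : n₂ ^ n.totient = n * j + 1 := by omega
    rw [h2, pow_succ, pow_mul, hx, ← map_pow]
    rfl
  · refine hp l hl (h.trans (orderOf_dvd_of_pow_eq_one ?_))
    obtain ⟨r, hr⟩ := dvd_pow_self n₂ (Nat.totient_pos.2 hn).ne'
    rw [← pow_mul, hr]
    have h3 : n₂ * r * n₁ = orderOf α * r := by
      rw [e]
      ring
    rw [h3, pow_mul, pow_orderOf_eq_one, one_pow]

end Pool.Agent.L5
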